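import Mathlib

/-!
# Order sequences of finite groups, domination and minimality
-/

namespace Q20.OrdSeq

/-- The order sequence of a finite group: the orders of all its elements, sorted in
non-decreasing order. -/
noncomputable def orderSequence (G : Type*) [Group G] [Fintype G] : List ℕ :=
  ((Finset.univ : Finset G).val.map orderOf).sort (· ≤ ·)

/-- `Dominates a b`: the two sequences have the same length and every entry of `a` is at least
the entry of `b` in the same position. -/
def Dominates (a b : List ℕ) : Prop :=
  List.Forall₂ (fun x y => y ≤ x) a b

/-- `G` has minimal order sequence: every group `H` of the same order whose order sequence is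
dominated by that of `G` has the same order sequence as `G`. -/
def HasMinimalOrderSequence (G : Type) [Group G] [Fintype G] : Prop :=
  ∀ (H : Type) [Group H] [Fintype H], Fintype.card H = Fintype.card G →
    Dominates (orderSequence G) (orderSequence H) → orderSequence H = orderSequence G

/-- There is a non-solvable group of order `n`, but every group of order `n` with minimal order
sequence is solvable. -/
def IsBadOrder (n : ℕ) : Prop :=
  (∃ (G : Type) (_ : Group G) (_ : Fintype G), Fintype.card G = n ∧ ¬ Group.IsSolvable G) ∧
    ∀ (G : Type) [Group G] [Fintype G], Fintype.card G = n →
      HasMinimalOrderSequence G → Group.IsSolvable G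

end Q20.OrdSeq
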