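import Mathlib

namespace Q20.OrdSeq

/-- the Frobenius group of order `60 p` -/
lemma exists_frob {p : ℕ} (hp : p.Prime) (hmod : p ≡ 1 [MOD 60]) :
    ∃ (H : Type) (_ : Group H) (_ : Fintype H), Fintype.card H = 60 * p ∧
      (∀ h : H, orderOf h ≤ p) ∧
      p ≤ ((Finset.univ : Finset H).filter (fun h => orderOf h < 3)).card := by
  classical
  have := Fact.mk hp
  have hp60 : 60 < p := by
    unfold Nat.ModEq at hmod
    have h1 := hp.one_lt
    by_contra h
    rcases Nat.lt_or_ge p 60 with h2 | h2
    · rw [Nat.mod_eq_of_lt h2] at hmod
      omega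
    · have : p = 60 := by omega
      rw [this] at hmod
      norm_num at hmod
  -- a unit of order 60
  obtain ⟨u, hu⟩ : ∃ u : (ZMod p)ˣ, orderOf u = 60 := by
    obtain ⟨g, hg⟩ := IsCyclic.exists_ofOrder_eq_natCard (α := (ZMod p)ˣ)
    have hdvd : 60 ∣ Nat.card (ZMod p)ˣ := by
      rw [Nat.card_eq_fintype_card, ZMod.card_units p]
      exact (Nat.modEq_iff_dvd' hp.one_le).1 hmod.symm
    refine ⟨g ^ (orderOf g / 60), ?_⟩
    apply orderOf_pow_orderOf_div
    · rw [hg]; exact Nat.card_pos.ne'
    · rw [hg]; exact hdvd
  let φ₀ : (ZMod p)ˣ →* MulAut (Multiplicative (ZMod p)) :=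
    (MulEquiv.toMonoidHom (MulAutMultiplicative (ZMod p)).symm).comp
      (DistribMulAction.toAddAut (ZMod p)ˣ (ZMod p))
  let φ : Subgroup.zpowers u →* MulAut (Multiplicative (ZMod p)) :=
    φ₀.comp (Subgroup.zpowers u).subtype
  let F := Multiplicative (ZMod p) ⋊[φ] (Subgroup.zpowers u)
  have : Finite (Multiplicative (ZMod p)) := inferInstanceAs (Finite (ZMod p))
  have : Finite F := Finite.of_equiv _ SemidirectProduct.equivProd.symm
  let _ : Fintype F := Fintype.ofFinite F
  have hcard : Nat.card F = 60 * p := by
    rw [SemidirectProduct.card, Nat.card_zpowers, hu, mul_comm]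
    congr 1
    exact Nat.card_zmod p
  have hφ : ∀ (v : Subgroup.zpowers u) (a : ZMod p),
      φ v (Multiplicative.ofAdd a) = Multiplicative.ofAdd (((v : (ZMod p)ˣ) : ZMod p) * a) := by
    intro v a
    rfl
  refine ⟨F, inferInstance, inferInstance, by rw [← Nat.card_eq_fintype_card]; exact hcard, ?_, ?_⟩
  · intro h
    by_cases hr : h.right = 1
    · have h1 : h = SemidirectProduct.inl h.left := by
        ext
        · rw [SemidirectProduct.left_inl]
        · rw [SemidirectProduct.right_inl, hr]
      have h2 : h ^ p = 1 := by
        rw [h1, ← map_pow]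
        have : h.left ^ p = 1 := by
          have h3 : Nat.card (Multiplicative (ZMod p)) = p := Nat.card_zmod p
          have h4 : h.left ^ Nat.card (Multiplicative (ZMod p)) = 1 := pow_card_eq_one'
          rwa [h3] at h4
        rw [this, map_one]
      exact Nat.le_of_dvd hp.pos (orderOf_dvd_of_pow_eq_one h2)
    · -- `h` is conjugate to an element of the complement
      set v : Subgroup.zpowers u := h.right with hv
      have hv1 : (1 : ZMod p) - ((v : (ZMod p)ˣ) : ZMod p) ≠ 0 := by
        intro h0
        apply hr
        apply Subtype.ext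
        apply Units.ext
        rw [sub_eq_zero] at h0
        exact h0.symm
      set b : ZMod p := (Multiplicative.toAdd h.left) / (1 - ((v : (ZMod p)ˣ) : ZMod p)) with hb
      have h1 : h = (SemidirectProduct.inl (Multiplicative.ofAdd b) : F) *
          SemidirectProduct.inr v * (SemidirectProduct.inl (Multiplicative.ofAdd b) : F)⁻¹ := by
        ext
        · rw [← map_inv, SemidirectProduct.mul_left, SemidirectProduct.mul_left,
            SemidirectProduct.left_inl, SemidirectProduct.left_inr, SemidirectProduct.left_inl,
            SemidirectProduct.mul_right, SemidirectProduct.right_inl,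
            SemidirectProduct.right_inr, one_mul, map_one, mul_one, ← ofAdd_neg, hφ,
            ← ofAdd_add]
          have : Multiplicative.toAdd h.left =
              b + ((v : (ZMod p)ˣ) : ZMod p) * -b := by
            rw [hb]
            field_simp
            ring
          rw [← this]
          rfl
        · rw [← map_inv, SemidirectProduct.mul_right, SemidirectProduct.mul_right,
            SemidirectProduct.right_inl, SemidirectProduct.right_inr,
            SemidirectProduct.right_inl, one_mul, mul_one]
      have h2 : orderOf h = orderOf (SemidirectProduct.inr v : F) := by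
        rw [h1]
        exact orderOf_injective (MulAut.conj (SemidirectProduct.inl (Multiplicative.ofAdd b) : F)).toMonoidHom
          (MulAut.conj _).injective _
      have h3 : (SemidirectProduct.inr v : F) ^ 60 = 1 := by
        rw [← map_pow]
        have : v ^ 60 = 1 := by
          have h4 : v ^ Nat.card (Subgroup.zpowers u) = 1 := pow_card_eq_one'
          rwa [Nat.card_zpowers, hu] at h4
        rw [this, map_one]
      rw [h2]
      have := Nat.le_of_dvd (by norm_num) (orderOf_dvd_of_pow_eq_one h3)
      omega
  · -- the elements `(a, -1)`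
    set w : Subgroup.zpowers u := ⟨u ^ 30, Subgroup.pow_mem _ (Subgroup.mem_zpowers u) 30⟩ with hw
    have hw2 : w * w = 1 := by
      apply Subtype.ext
      change u ^ 30 * u ^ 30 = 1
      rw [← pow_add]
      have h1 := pow_orderOf_eq_one u
      rwa [hu] at h1
    have hwne : w ≠ 1 := by
      intro h
      have h1 : u ^ 30 = 1 := congrArg Subtype.val h
      have h2 := orderOf_dvd_of_pow_eq_one h1
      rw [hu] at h2
      exact absurd (Nat.le_of_dvd (by norm_num) h2) (by norm_num)
    have hwval : ((w : (ZMod p)ˣ) : ZMod p) = -1 := by
      have h1 : ((w : (ZMod p)ˣ) : ZMod p) * ((w : (ZMod p)ˣ) : ZMod p) = 1 := by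
        have := congrArg (fun z : Subgroup.zpowers u => ((z : (ZMod p)ˣ) : ZMod p)) hw2
        simpa using this
      rcases mul_self_eq_one_iff.1 h1 with h2 | h2
      · exfalso
        apply hwne
        apply Subtype.ext
        apply Units.ext
        exact h2
      · exact h2
    let ι : ZMod p → F := fun a =>
      (SemidirectProduct.inl (Multiplicative.ofAdd a) : F) * SemidirectProduct.inr w
    have hι : Function.Injective ι := by
      intro a b hab
      have h1 := mul_right_cancel hab
      have h2 := SemidirectProduct.inl_injective h1
      exact Multiplicative.ofAdd.injective h2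
    have hsq : ∀ a, ι a ^ 2 = 1 := by
      intro a
      rw [pow_two]
      ext
      · simp only [ι]
        rw [SemidirectProduct.mul_left, SemidirectProduct.mul_left, SemidirectProduct.mul_right,
          SemidirectProduct.left_inl, SemidirectProduct.left_inr, SemidirectProduct.right_inl,
          SemidirectProduct.right_inr, map_one, mul_one, one_mul, hφ, hwval, ← ofAdd_add]
        simp
      · simp only [ι]
        rw [SemidirectProduct.mul_right, SemidirectProduct.mul_right,
          SemidirectProduct.right_inl, SemidirectProduct.right_inr, one_mul, hw2]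
        rfl
    have hsub : (Finset.univ.image ι) ⊆
        (Finset.univ : Finset F).filter (fun h => orderOf h < 3) := by
      intro x hx
      rw [Finset.mem_image] at hx
      obtain ⟨a, -, rfl⟩ := hx
      rw [Finset.mem_filter]
      refine ⟨Finset.mem_univ _, ?_⟩
      have := Nat.le_of_dvd (by norm_num) (orderOf_dvd_of_pow_eq_one (hsq a))
      omega
    have h5 := Finset.card_le_card hsub
    rw [Finset.card_image_of_injective _ hι, Finset.card_univ, ZMod.card] at h5
    exact h5

end Q20.OrdSeq
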