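import Pool.Agent.Q20.OrdSeq.Defs

namespace Q20.OrdSeq

lemma getElem_lt_iff : ∀ (l : List ℕ), l.Pairwise (· ≤ ·) → ∀ (t i : ℕ) (hi : i < l.length),
    (l[i] < t ↔ i < l.countP (fun x => x < t))
  | [], _, t, i, hi => by simp at hi
  | a :: l, hl, t, i, hi => by
    rw [List.pairwise_cons] at hl
    have ih := getElem_lt_iff l hl.2 t
    by_cases ha : a < t
    · rw [List.countP_cons_of_pos (by simpa using ha)]
      cases i with
      | zero => simpa using ha
      | succ i =>
        simp only [List.getElem_cons_succ]
        rw [ih i (by simpa using hi)]
        omega
    · rw [List.countP_cons_of_neg (by simpa using ha)]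
      have hz : l.countP (fun x => x < t) = 0 := by
        rw [List.countP_eq_zero]
        intro x hx
        have := hl.1 x hx
        simp only [decide_eq_true_eq]
        omega
      rw [hz]
      constructor
      · intro h
        exfalso
        cases i with
        | zero => exact ha (by simpa using h)
        | succ i =>
          simp only [List.getElem_cons_succ] at h
          rw [ih i (by simpa using hi), hz] at h
          omega
      · intro h
        omega

lemma dominates_of_count {a b : List ℕ} (ha : a.Pairwise (· ≤ ·)) (hb : b.Pairwise (· ≤ ·))
    (hlen : a.length = b.length)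
    (h : ∀ t, a.countP (fun x => x < t) ≤ b.countP (fun x => x < t)) : Dominates a b := by
  unfold Dominates
  rw [List.forall₂_iff_get]
  refine ⟨hlen, fun i hi hi' => ?_⟩
  by_contra hlt
  rw [not_le] at hlt
  simp only [List.get_eq_getElem] at hlt
  have h1 := (getElem_lt_iff a ha (b[i]'hi') i hi).1 hlt
  have h2 := (getElem_lt_iff b hb (b[i]'hi') i hi').2 (h1.trans_le (h _))
  exact lt_irrefl _ h2

variable {G : Type*} [Group G] [Fintype G]

lemma orderSequence_length : (orderSequence G).length = Fintype.card G := by
  unfold orderSequence
  rw [Multiset.length_sort, Multiset.card_map]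
  rfl

lemma orderSequence_sorted : (orderSequence G).Pairwise (· ≤ ·) := by
  unfold orderSequence
  exact Multiset.pairwise_sort _ _

open Classical in
lemma countP_orderSequence (t : ℕ) : (orderSequence G).countP (fun x => x < t) =
    ((Finset.univ : Finset G).filter (fun g => orderOf g < t)).card := by
  unfold orderSequence
  have h := Multiset.coe_countP (fun x => x < t)
    (((Finset.univ : Finset G).val.map orderOf).sort (· ≤ ·))
  rw [Multiset.sort_eq] at h
  rw [← h, Multiset.countP_map, Finset.card_def, Finset.filter_val]

end Q20.OrdSeq
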