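import Pool.Agent.Q20.OrdSeq.Small

namespace Q20.OrdSeq

/-- In a non-solvable group of order `60 p` with `p` a prime larger than `60`, at most `60`
elements have order less than `p`. -/
lemma few_small_orders {G : Type*} [Group G] [Fintype G] {p : ℕ} (hp : p.Prime) (hp60 : 60 < p)
    (hG : Fintype.card G = 60 * p) (hns : ¬ Group.IsSolvable G) :
    ((Finset.univ : Finset G).filter (fun g => orderOf g < p)).card ≤ 60 := by
  classical
  have := Fact.mk hp
  have hGn : Nat.card G = 60 * p := by rw [Nat.card_eq_fintype_card, hG]
  let P : Sylow p G := default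
  have hP : Nat.card (P : Subgroup G) = p := by
    have h1 : Nat.card P = p ^ (Nat.card G).factorization p := P.card_eq_multiplicity
    have h2 : (Nat.card G).factorization p = 1 := by
      rw [hGn, Nat.factorization_mul (by norm_num) hp.ne_zero, Finsupp.add_apply,
        Nat.Prime.factorization_self hp, Nat.factorization_eq_zero_of_not_dvd]
      intro h
      exact absurd (Nat.le_of_dvd (by norm_num) h) (by omega)
    rw [h2, pow_one] at h1
    exact h1
  have hidx : (P : Subgroup G).index = 60 := by
    have := (P : Subgroup G).card_mul_index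
    rw [hP, hGn, mul_comm] at this
    exact Nat.eq_of_mul_eq_mul_right hp.pos this
  have h3 : Nat.card (Sylow p G) = 1 := by
    have h1 := P.card_dvd_index
    rw [hidx] at h1
    have h2 := card_sylow_modEq_one p G
    have h4 := Nat.le_of_dvd (by norm_num) h1
    unfold Nat.ModEq at h2
    rw [Nat.mod_eq_of_lt (by omega), Nat.mod_eq_of_lt (by omega)] at h2
    exact h2
  have : Subsingleton (Sylow p G) := (Nat.card_eq_one_iff_unique.1 h3).1
  have hnormal : (P : Subgroup G).Normal := P.normal_of_subsingleton
  -- the centralizer of `P`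
  let f : G →* MulAut (P : Subgroup G) := MulAut.conjNormal
  have hcyc : IsCyclic (P : Subgroup G) := isCyclic_of_prime_card hP
  have hquot : Group.IsSolvable (G ⧸ f.ker) := by
    apply Group.isSolvable_of_comm
    intro a b
    let e := QuotientGroup.kerLift f
    have he : Function.Injective e := QuotientGroup.kerLift_injective f
    apply he
    rw [map_mul, map_mul]
    apply (IsCyclic.mulAutMulEquiv (P : Subgroup G)).injective
    rw [map_mul, map_mul, mul_comm]
  have hker : ∀ g : G, g ∈ f.ker → ∀ x ∈ (P : Subgroup G), g * x = x * g := by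
    intro g hg x hx
    rw [MonoidHom.mem_ker] at hg
    have h1 := congrArg (fun φ : MulAut (P : Subgroup G) => ((φ ⟨x, hx⟩ : (P : Subgroup G)) : G)) hg
    simp only [f, MulAut.conjNormal_apply, MulAut.one_apply] at h1
    rwa [mul_inv_eq_iff_eq_mul] at h1
  have hPker : (P : Subgroup G) ≤ f.ker := by
    intro g hg
    rw [MonoidHom.mem_ker]
    ext x
    simp only [f, MulAut.conjNormal_apply, MulAut.one_apply]
    rw [mul_inv_eq_iff_eq_mul]
    let _ := hcyc.commGroup
    have : (⟨g, hg⟩ : (P : Subgroup G)) * x = x * ⟨g, hg⟩ := mul_comm _ _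
    exact congrArg Subtype.val this
  have hkertop : f.ker = ⊤ := by
    by_contra hne
    apply hns
    rw [Group.isSolvable_iff_subgroup_quotient f.ker]
    refine ⟨?_, hquot⟩
    -- the order of `f.ker`
    have : ((P : Subgroup G).subgroupOf f.ker).Normal := inferInstance
    rw [Group.isSolvable_iff_subgroup_quotient ((P : Subgroup G).subgroupOf f.ker)]
    have hcardP : Nat.card ((P : Subgroup G).subgroupOf f.ker) = p := by
      rw [Nat.card_congr (Subgroup.subgroupOfEquivOfLe hPker).toEquiv, hP]
    constructor
    · exact solvable_of_prime_pow (p := p) (n := 1) hp (by rw [hcardP, pow_one])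
    · have hidx2 : Nat.card (f.ker ⧸ (P : Subgroup G).subgroupOf f.ker) * f.ker.index = 60 := by
        have := Subgroup.relIndex_mul_index hPker
        rw [hidx] at this
        exact this
      apply solvable_of_dvd_sixty
      · exact Dvd.intro _ hidx2
      · intro h60
        rw [h60] at hidx2
        have h1 : f.ker.index = 1 := by omega
        exact hne (Subgroup.index_eq_one.1 h1)
  have hcentral : ∀ g : G, ∀ x ∈ (P : Subgroup G), g * x = x * g := by
    intro g
    apply hker
    rw [hkertop]; trivial
  -- the elements of order `< p` inject into `G ⧸ P`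
  have hpow : ∀ g : G, orderOf g < p → g ^ 60 = 1 := by
    intro g hg
    have h1 : orderOf g ∣ 60 * p := by rw [← hG]; exact orderOf_dvd_card
    have h2 : ¬ p ∣ orderOf g := by
      intro h
      exact absurd (Nat.le_of_dvd (orderOf_pos g) h) (by omega)
    have h3 : (orderOf g).Coprime p := ((Nat.Prime.coprime_iff_not_dvd hp).2 h2).symm
    exact orderOf_dvd_iff_pow_eq_one.1 (h3.dvd_of_dvd_mul_right h1)
  have hcardq : Fintype.card (G ⧸ (P : Subgroup G)) = 60 := by
    rw [← Nat.card_eq_fintype_card]; exact hidx
  rw [← hcardq]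
  apply Finset.card_le_card_of_injOn (fun g : G => (QuotientGroup.mk g : G ⧸ (P : Subgroup G)))
  · intro g _
    exact Finset.mem_coe.2 (Finset.mem_univ _)
  · intro g hg g' hg' heq
    simp only [Finset.coe_filter, Finset.mem_univ, true_and, Set.mem_setOf_eq] at hg hg'
    simp only at heq
    rw [QuotientGroup.eq] at heq
    have hc : g * (g⁻¹ * g') = (g⁻¹ * g') * g := hcentral g _ heq
    have hcomm : Commute g (g⁻¹ * g') := hc
    have h1 : g' = g * (g⁻¹ * g') := by group
    have h2 : (g⁻¹ * g') ^ 60 = 1 := by
      have h3 := hpow g' hg'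
      rw [h1, hcomm.mul_pow, hpow g hg, one_mul] at h3
      exact h3
    have h4 : orderOf (g⁻¹ * g') ∣ p := by
      rw [← hP]
      exact Subgroup.orderOf_dvd_natCard _ heq
    have h5 : orderOf (g⁻¹ * g') ∣ 60 := orderOf_dvd_of_pow_eq_one h2
    have h6 : orderOf (g⁻¹ * g') = 1 := by
      rcases (Nat.dvd_prime hp).1 h4 with h | h
      · exact h
      · rw [h] at h5
        exact absurd (Nat.le_of_dvd (by norm_num) h5) (by omega)
    rw [orderOf_eq_one_iff] at h6
    rw [h1, h6, mul_one]

end Q20.OrdSeq
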