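import Pool.Agent.Q20.OrdSeq.Lists
import Pool.Agent.Q20.OrdSeq.NonSolv
import Pool.Agent.Q20.OrdSeq.Frob

namespace Q20.OrdSeq

lemma lt_two_card {G : Type*} [Group G] [Fintype G] :
    ((Finset.univ : Finset G).filter (fun g => orderOf g < 2)).card = 1 := by
  classical
  rw [Finset.card_eq_one]
  refine ⟨1, ?_⟩
  ext g
  simp only [Finset.mem_filter, Finset.mem_univ, true_and, Finset.mem_singleton]
  constructor
  · intro h
    have := orderOf_pos g
    rw [← orderOf_eq_one_iff]
    omega
  · rintro rfl
    rw [orderOf_one]; norm_num

theorem bad_of_prime {p : ℕ} (hp : p.Prime) (hmod : p ≡ 1 [MOD 60]) : IsBadOrder (60 * p) := by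
  classical
  have hp60 : 60 < p := by
    unfold Nat.ModEq at hmod
    have h1 := hp.one_lt
    by_contra h
    rcases Nat.lt_or_ge p 60 with h2 | h2
    · rw [Nat.mod_eq_of_lt h2] at hmod
      omega
    · have : p = 60 := by omega
      rw [this] at hmod
      norm_num at hmod
  constructor
  · have : NeZero p := ⟨hp.ne_zero⟩
    refine ⟨alternatingGroup (Fin 5) × Multiplicative (ZMod p), inferInstance, inferInstance,
      ?_, ?_⟩
    · rw [Fintype.card_prod]
      have h1 : Fintype.card (alternatingGroup (Fin 5)) = 60 := by
        have := two_mul_card_alternatingGroup (α := Fin 5)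
        rw [Fintype.card_perm, Fintype.card_fin] at this
        have h5 : Nat.factorial 5 = 120 := by decide
        rw [h5] at this
        omega
      rw [h1, Fintype.card_multiplicative, ZMod.card]
    · intro hsol
      have h1 : Group.IsSolvable (alternatingGroup (Fin 5)) :=
        Group.isSolvable_of_surjective (f := MonoidHom.fst (alternatingGroup (Fin 5))
          (Multiplicative (ZMod p))) (fun a => ⟨(a, 1), rfl⟩)
      have h2 : Group.IsSolvable (Equiv.Perm (Fin 5)) := by
        rw [Group.isSolvable_iff_subgroup_quotient (alternatingGroup (Fin 5))]
        refine ⟨h1, ?_⟩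
        apply Group.isSolvable_of_comm
        have key : ∀ a b : Equiv.Perm (Fin 5) ⧸ (Equiv.Perm.sign (α := Fin 5)).ker,
            a * b = b * a := by
          intro a b
          apply QuotientGroup.kerLift_injective (Equiv.Perm.sign (α := Fin 5))
          rw [map_mul, map_mul, mul_comm]
        exact key
      exact Equiv.Perm.not_isSolvable_fin_5 h2
  · intro G _ _ hG hmin
    by_contra hns
    obtain ⟨H, _, _, hH, hmax, hinv⟩ := exists_frob hp hmod
    have hfew := few_small_orders hp hp60 hG hns
    have hdom : Dominates (orderSequence G) (orderSequence H) := by
      apply dominates_of_count orderSequence_sorted orderSequence_sorted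
      · rw [orderSequence_length, orderSequence_length, hG, hH]
      · intro t
        rw [countP_orderSequence, countP_orderSequence]
        rcases Nat.lt_or_ge t 2 with ht | ht
        · have : ((Finset.univ : Finset G).filter (fun g => orderOf g < t)).card = 0 := by
            rw [Finset.card_eq_zero, Finset.filter_eq_empty_iff]
            intro g _ hg
            have := orderOf_pos g
            omega
          rw [this]; exact Nat.zero_le _
        · rcases Nat.lt_or_ge 2 t with ht2 | ht2
          · rcases Nat.lt_or_ge p t with htp | htp
            · have : ((Finset.univ : Finset H).filter (fun g => orderOf g < t)) = Finset.univ := by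
                rw [Finset.filter_eq_self]
                intro h _
                exact (hmax h).trans_lt htp
              rw [this, Finset.card_univ, hH, ← hG]
              exact Finset.card_le_univ _
            · calc ((Finset.univ : Finset G).filter (fun g => orderOf g < t)).card
                  ≤ ((Finset.univ : Finset G).filter (fun g => orderOf g < p)).card := by
                    apply Finset.card_le_card
                    intro g hg
                    rw [Finset.mem_filter] at hg ⊢
                    exact ⟨hg.1, by omega⟩
                _ ≤ 60 := hfew
                _ ≤ p := hp60.le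
                _ ≤ ((Finset.univ : Finset H).filter (fun h => orderOf h < 3)).card := hinv
                _ ≤ ((Finset.univ : Finset H).filter (fun h => orderOf h < t)).card := by
                    apply Finset.card_le_card
                    intro g hg
                    rw [Finset.mem_filter] at hg ⊢
                    exact ⟨hg.1, by omega⟩
          · have : t = 2 := by omega
            subst this
            rw [lt_two_card, lt_two_card]
    have heq := hmin H (by rw [hH, hG]) hdom
    have h1 := countP_orderSequence (G := H) 3
    have h2 := countP_orderSequence (G := G) 3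
    rw [heq, h2] at h1
    have h3 : ((Finset.univ : Finset G).filter (fun g => orderOf g < 3)).card ≤ 60 := by
      refine le_trans (Finset.card_le_card ?_) hfew
      intro g hg
      rw [Finset.mem_filter] at hg ⊢
      exact ⟨hg.1, by omega⟩
    omega

theorem main : (∀ p : ℕ, p.Prime → p ≡ 1 [MOD 60] → IsBadOrder (60 * p)) ∧
    {n : ℕ | IsBadOrder n}.Infinite := by
  refine ⟨fun p hp hmod => bad_of_prime hp hmod, ?_⟩
  rw [Set.infinite_iff_exists_gt]
  intro N
  obtain ⟨p, hp, hpN, hmod⟩ := Nat.exists_prime_gt_modEq_one (k := 60) N (by norm_num)
  exact ⟨60 * p, bad_of_prime hp hmod, by omega⟩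

end Q20.OrdSeq
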