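import Mathlib

namespace Q20.OrdSeq


/-- groups of squarefree order are solvable -/
lemma solvable_of_squarefree {K : Type*} [Group K] [Finite K] (h : Squarefree (Nat.card K)) :
    Group.IsSolvable K := by
  have := IsZGroup.of_squarefree h
  infer_instance

lemma solvable_of_prime_pow {K : Type*} [Group K] [Finite K] {p n : ℕ} (hp : p.Prime)
    (h : Nat.card K ∣ p ^ n) : Group.IsSolvable K := by
  have := Fact.mk hp
  have h1 : IsPGroup p K := IsPGroup.of_card_dvd_pow h
  have := h1.isNilpotent
  infer_instance

lemma solvable_of_card_twelve {K : Type*} [Group K] [Finite K] (h : Nat.card K = 12) :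
    Group.IsSolvable K := by
  obtain ⟨Q, hQ⟩ := Sylow.exists_subgroup_card_pow_prime (G := K) 2 (n := 2)
    (by rw [h]; norm_num)
  have hidx : Q.index = 3 := by
    have := Q.card_mul_index
    rw [hQ, h] at this
    omega
  have : Finite (K ⧸ Q) := inferInstance
  have hker : (MulAction.toPermHom K (K ⧸ Q)).ker = Q.normalCore := Q.normalCore_eq_ker.symm
  rw [Group.isSolvable_iff_subgroup_quotient (MulAction.toPermHom K (K ⧸ Q)).ker]
  constructor
  · apply solvable_of_prime_pow (p := 2) (n := 2) Nat.prime_two
    rw [← hQ, hker]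
    exact Subgroup.card_dvd_of_le Q.normalCore_le
  · apply solvable_of_squarefree
    have e := QuotientGroup.quotientKerEquivRange (MulAction.toPermHom K (K ⧸ Q))
    rw [Nat.card_congr e.toEquiv]
    have h1 : Nat.card (MulAction.toPermHom K (K ⧸ Q)).range ∣ 6 := by
      have h2 := Subgroup.card_subgroup_dvd_card (MulAction.toPermHom K (K ⧸ Q)).range
      rw [Nat.card_perm] at h2
      have h3 : Nat.card (K ⧸ Q) = 3 := hidx
      rw [h3] at h2
      exact h2
    exact Squarefree.squarefree_of_dvd h1 (by decide +kernel)

lemma solvable_of_card_twenty {K : Type*} [Group K] [Finite K] (h : Nat.card K = 20) :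
    Group.IsSolvable K := by
  have : Fact (Nat.Prime 5) := ⟨by norm_num⟩
  let P : Sylow 5 K := default
  have hP : Nat.card P = 5 := by
    rw [P.card_eq_multiplicity, h]
    have : (20 : ℕ).factorization 5 = 1 := by
      rw [show (20 : ℕ) = 5 * 4 by norm_num, Nat.factorization_mul (by norm_num) (by norm_num),
        Finsupp.add_apply, Nat.Prime.factorization_self (by norm_num),
        Nat.factorization_eq_zero_of_not_dvd (by norm_num)]
    rw [this, pow_one]
  have hidx : (P : Subgroup K).index = 4 := by
    have := (P : Subgroup K).card_mul_index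
    rw [h] at this
    have hP' : Nat.card (P : Subgroup K) = 5 := hP
    rw [hP'] at this
    omega
  have h1 := P.card_dvd_index
  rw [hidx] at h1
  have h2 := card_sylow_modEq_one 5 K
  have h3 : Nat.card (Sylow 5 K) = 1 := by
    have h4 := Nat.le_of_dvd (by norm_num) h1
    unfold Nat.ModEq at h2
    omega
  have : Subsingleton (Sylow 5 K) := (Nat.card_eq_one_iff_unique.1 h3).1
  have : (P : Subgroup K).Normal := P.normal_of_subsingleton
  rw [Group.isSolvable_iff_subgroup_quotient (P : Subgroup K)]
  constructor
  · exact solvable_of_prime_pow (p := 5) (n := 1) (by norm_num) (by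
      have hP' : Nat.card (P : Subgroup K) = 5 := hP
      rw [hP']; norm_num)
  · apply solvable_of_prime_pow (p := 2) (n := 2) Nat.prime_two
    have : Nat.card (K ⧸ (P : Subgroup K)) = 4 := hidx
    rw [this]; norm_num

/-- proper divisors of `60` are orders of solvable groups only -/
lemma solvable_of_dvd_sixty {K : Type*} [Group K] [Finite K] (h : Nat.card K ∣ 60)
    (h' : Nat.card K ≠ 60) : Group.IsSolvable K := by
  have hmem : Nat.card K ∈ Nat.divisors 60 := Nat.mem_divisors.2 ⟨h, by norm_num⟩
  have hdiv : Nat.divisors 60 = {1, 2, 3, 4, 5, 6, 10, 12, 15, 20, 30, 60} := by decide +kernel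
  rw [hdiv] at hmem
  simp only [Finset.mem_insert, Finset.mem_singleton] at hmem
  by_cases h12 : Nat.card K = 12
  · exact solvable_of_card_twelve h12
  by_cases h20 : Nat.card K = 20
  · exact solvable_of_card_twenty h20
  by_cases h4 : Nat.card K = 4
  · exact solvable_of_prime_pow (p := 2) (n := 2) Nat.prime_two (by rw [h4]; norm_num)
  apply solvable_of_squarefree
  have : ∀ n ∈ ({1, 2, 3, 5, 6, 10, 15, 30} : Finset ℕ), Squarefree n := by decide +kernel
  apply this
  simp only [Finset.mem_insert, Finset.mem_singleton]
  tauto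

end Q20.OrdSeq
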